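import Pool.Agent.Y85.KT.Exp

set_option autoImplicit false
set_option linter.unusedSectionVars false

/-!
# Embedding of a tight tree into a hypergraph with large codegrees
-/

namespace Pool.Agent.Y85.KT

open Finset Function

variable {α : Type*} [Fintype α] [DecidableEq α] {r c t : ℕ} {D : Dat r c t}
  {H : Finset (Finset α)}

/-- weight of a homomorphism of the trunk -/
noncomputable def W (D : Dat r c t) (H : Finset (Finset α)) (φ : ℕ → α) : ℝ :=
  ∑ l ∈ Ico c t, (1 : ℝ) / #(N H (D.s l) (φ ∘ D.ι (D.p l)))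

lemma W_nonneg (φ : ℕ → α) : 0 ≤ W D H φ := Finset.sum_nonneg fun _ _ => by positivity

lemma E_W (hr : ∀ h ∈ H, #h = r) (hH : H.Nonempty) (a : α) :
    E D H a (c - 1) (W D H) = (t - c) * xx H r := by
  have hc := D.hc
  have hct := D.hct
  unfold W
  rw [E_sum, Finset.sum_congr rfl (g := fun _ => xx H r), Finset.sum_const, nsmul_eq_mul,
    Nat.card_Ico, Nat.cast_sub hct]
  intro l hl
  obtain ⟨h1, h2⟩ := mem_Ico.1 hl
  have h3 := D.hpl l h1 h2
  rw [E_marg (by omega) (by omega) (fun τ => (1 : ℝ) / #(N H (D.s l) τ)), avg_inv hr hH]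

/-- the number of vertex pairs which may collide -/
lemma E_bads (hr : ∀ h ∈ H, #h = r) (hH : H.Nonempty) (a : α) :
    E D H a (c - 1) (fun φ => ∑ k ∈ range (c - 1), bad D k φ) ≤
      ((c : ℝ) * (c - 1) / 2) * xx H r := by
  have hc := D.hc
  rw [E_sum]
  calc ∑ k ∈ range (c - 1), E D H a (c - 1) (bad D k)
      ≤ ∑ k ∈ range (c - 1), ((k : ℝ) + 1) * xx H r := by
        refine Finset.sum_le_sum fun k hk => ?_
        have := mem_range.1 hk
        exact E_bad' hr hH (by omega) (by omega)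
    _ = ((c : ℝ) * (c - 1) / 2) * xx H r := by
        rw [← Finset.sum_mul]
        congr 1
        have h1 : ∀ m : ℕ, ∑ k ∈ range m, ((k : ℝ) + 1) = (m + 1) * m / 2 := by
          intro m
          induction m with
          | zero => simp
          | succ m ih =>
            rw [Finset.sum_range_succ, ih]
            push_cast
            ring
        rw [h1, Nat.cast_sub hc]
        push_cast
        ring

/-- without collisions the homomorphism is injective -/
lemma inj_of_bad {k : ℕ} (hk : k < c) {φ : ℕ → α} (hφ : Good D H k φ)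
    (hb : ∀ j < k, bad D j φ = 0) : Set.InjOn φ (V D k) := by
  induction k with
  | zero =>
    intro x hx y hy hxy
    obtain ⟨j, hj, i, rfl⟩ := mem_V.1 (mem_coe.1 hx)
    obtain ⟨j', hj', i', rfl⟩ := mem_V.1 (mem_coe.1 hy)
    have h1 : j = 0 := by omega
    have h2 : j' = 0 := by omega
    subst h1
    subst h2
    have h3 := (mem_O.1 (hφ 0 le_rfl)).1
    rw [show i = i' from h3 hxy]
  | succ k ih =>
    have h1 := ih (by omega) (fun j hj => hφ j (by omega)) fun j hj => hb j (by omega)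
    have h2 : φ (D.v (k + 1)) ∉ (V D k).image φ := by
      intro hc
      have := hb k (by omega)
      unfold bad at this
      rw [if_pos hc] at this
      norm_num at this
    rw [V_succ hk, coe_insert]
    intro x hx y hy hxy
    rcases Set.mem_insert_iff.1 hx with rfl | hx
    · rcases Set.mem_insert_iff.1 hy with rfl | hy
      · rfl
      · exact absurd (mem_image.2 ⟨y, mem_coe.1 hy, hxy.symm⟩) h2
    · rcases Set.mem_insert_iff.1 hy with rfl | hy
      · exact absurd (mem_image.2 ⟨x, mem_coe.1 hx, hxy⟩) h2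
      · exact h1 hx hy hxy

/-- the existence of a good embedding of the trunk -/
lemma exists_trunk (hr : ∀ h ∈ H, #h = r) (hH : H.Nonempty) (hr0 : 1 ≤ r) {β : ℝ} (hβ : 0 < β)
    (hlt : β * #(H.shadow) < #H) (ht : 2 ≤ t)
    (hb : (r : ℝ) * β = (t - c) + c * (c - 1) / 2 + r * (c - 1)) :
    ∃ φ : ℕ → α, Good D H (c - 1) φ ∧ Set.InjOn φ (V D (c - 1)) ∧
      W D H φ < 1 - (c - 1) / β := by
  have hc := D.hc
  have hct := D.hct
  have hc' : (1 : ℝ) ≤ c := by exact_mod_cast hc
  have hct' : (c : ℝ) ≤ t := by exact_mod_cast hct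
  have hr' : (1 : ℝ) ≤ r := by exact_mod_cast hr0
  by_contra hcon
  push Not at hcon
  obtain ⟨h0, hh0⟩ := hH
  obtain ⟨a, _⟩ : h0.Nonempty := card_pos.1 (by rw [hr h0 hh0]; omega)
  have hH : H.Nonempty := ⟨h0, hh0⟩
  have hO : (O H r).Nonempty := by
    rw [← card_pos]
    have h1 := card_O hr
    have h2 : (0 : ℝ) < #H := by exact_mod_cast card_pos.2 hH
    have h3 : (0 : ℝ) < r.factorial := by exact_mod_cast r.factorial_pos
    have h4 : (0 : ℝ) < #(O H r) := by rw [h1]; positivity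
    exact_mod_cast h4
  set θ : ℝ := 1 - (c - 1) / β with hθ
  have hβc : (c : ℝ) - 1 ≤ β := by
    have h1 : (r : ℝ) * (c - 1) ≤ r * β := by
      rw [hb]
      have : 0 ≤ (c : ℝ) * (c - 1) / 2 := by
        have := mul_nonneg (by linarith : (0:ℝ) ≤ c) (by linarith : (0:ℝ) ≤ (c:ℝ) - 1)
        linarith
      linarith
    exact le_of_mul_le_mul_left h1 (by linarith)
  have hθ0 : 0 ≤ θ := by
    rw [hθ, sub_nonneg, div_le_one hβ]
    exact hβc
  have hθ1 : θ ≤ 1 := by
    rw [hθ]
    have : 0 ≤ ((c : ℝ) - 1) / β := div_nonneg (by linarith) hβ.le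
    linarith
  -- lower bound
  have h1 : θ ≤ E D H a (c - 1) (fun φ => W D H φ + θ * ∑ k ∈ range (c - 1), bad D k φ) := by
    refine (E_const (D := D) (a := a) hO (k := c - 1) (by omega) θ).symm.le.trans ?_
    refine E_mono (by omega) fun φ hφ => ?_
    by_cases hb' : ∀ j < c - 1, bad D j φ = 0
    · have h2 := hcon φ hφ (inj_of_bad (by omega) hφ hb')
      have h3 : ∑ k ∈ range (c - 1), bad D k φ = 0 :=
        Finset.sum_eq_zero fun k hk => hb' k (mem_range.1 hk)
      rw [h3, mul_zero, add_zero]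
      exact h2
    · push Not at hb'
      obtain ⟨j, hj, hj'⟩ := hb'
      have h3 : bad D j φ = 1 := by
        unfold bad at hj' ⊢
        split_ifs with h
        · rfl
        · rw [if_neg h] at hj'
          exact absurd rfl hj'
      have h4 : 1 ≤ ∑ k ∈ range (c - 1), bad D k φ := by
        rw [← h3]
        exact Finset.single_le_sum (f := fun k => bad D k φ) (fun k _ => bad_nonneg k φ)
          (mem_range.2 hj)
      have h5 := W_nonneg (D := D) (H := H) φ
      nlinarith
  rw [E_add, E_mul, E_W hr hH] at h1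
  have h2 := E_bads (D := D) hr hH a
  have hx : xx H r * (r * β) < 1 ∧ 0 < xx H r := by
    have h3 : (0 : ℝ) < #H := by exact_mod_cast card_pos.2 hH
    have h4 : 0 < (#(H.shadow) : ℝ) := by
      have : H.shadow.Nonempty := by
        obtain ⟨y, hy⟩ : h0.Nonempty := card_pos.1 (by rw [hr h0 hh0]; omega)
        exact ⟨h0.erase y, Finset.erase_mem_shadow hh0 hy⟩
      exact_mod_cast card_pos.2 this
    unfold xx
    constructor
    · rw [div_mul_eq_mul_div, div_lt_one (by positivity)]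
      nlinarith
    · positivity
  set C : ℝ := (c : ℝ) * (c - 1) / 2 with hC
  have hC0 : 0 ≤ C := by
    have := mul_nonneg (by linarith : (0:ℝ) ≤ c) (by linarith : (0:ℝ) ≤ (c:ℝ) - 1)
    rw [hC]
    linarith
  have h3 : θ ≤ ((t - c) + θ * C) * xx H r := by nlinarith
  have h4 : r * β * θ = (t - c) + C := by
    have : β * θ = β - (c - 1) := by
      rw [hθ]
      field_simp
    rw [mul_assoc, this, mul_sub, hb]
    ring
  -- conclusion
  have h5 : 0 < r * β := by positivity
  have h6 : r * β * θ ≤ ((t - c) + θ * C) * (xx H r * (r * β)) := by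
    calc r * β * θ ≤ r * β * (((t - c) + θ * C) * xx H r) := by
          exact mul_le_mul_of_nonneg_left h3 h5.le
      _ = _ := by ring
  have h7 : 0 ≤ ((t : ℝ) - c) + θ * C := by
    have := mul_nonneg hθ0 hC0
    linarith
  rcases h7.lt_or_eq with h8 | h8
  · have h9 : ((t - c) + θ * C) * (xx H r * (r * β)) < ((t - c) + θ * C) := by
      nlinarith [hx.1]
    rw [h4] at h6
    nlinarith
  · have h9 : r * β * θ ≤ 0 := by
      rw [← h8, zero_mul] at h6
      exact h6
    rw [h4] at h9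
    have h10 : (t : ℝ) - c = 0 ∧ C = 0 := by
      constructor <;> nlinarith
    have h11 : (c : ℝ) = 1 := by
      have h12 : (c : ℝ) * (c - 1) = 0 := by
        have := h10.2
        rw [hC] at this
        linarith
      rcases mul_eq_zero.1 h12 with h13 | h13 <;> linarith
    have h12 : (t : ℝ) = 1 := by linarith [h10.1]
    have h13 : t = 1 := by exact_mod_cast h12
    omega

/-- the embedding of the whole tree -/
theorem exists_embedding (hr : ∀ h ∈ H, #h = r) (hH : H.Nonempty) (hr0 : 1 ≤ r) {β : ℝ}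
    (hβ : 0 < β) (hlt : β * #(H.shadow) < #H) (hdg : ∀ g ∈ H.shadow, β < dg H g) (ht : 2 ≤ t)
    (hb : (r : ℝ) * β = (t - c) + c * (c - 1) / 2 + r * (c - 1)) :
    ∃ f : ℕ → α, Set.InjOn f {x | x ∈ V D (c - 1) ∨ ∃ l, c ≤ l ∧ l < t ∧ x = D.v l} ∧
      (∀ k < c, f ∘ D.ι k ∈ O H r) ∧
      ∀ l, c ≤ l → l < t → f ∘ update (D.ι (D.p l)) (D.s l) (D.v l) ∈ O H r := by
  classical
  have hc := D.hc
  have hct := D.hct
  have hc' : (1 : ℝ) ≤ c := by exact_mod_cast hc
  obtain ⟨φ, hφ, hinj, hW⟩ := exists_trunk (D := D) hr hH hr0 hβ hlt ht hb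
  -- Hall's condition
  set S : ↥(Ico c t) → Finset α := fun l =>
    (N H (D.s l) (φ ∘ D.ι (D.p l))).filter fun w => w ∉ (V D (c - 1)).image φ with hS
  have hN : ∀ l : ↥(Ico c t), β < #(N H (D.s l) (φ ∘ D.ι (D.p l))) ∧
      #(N H (D.s l) (φ ∘ D.ι (D.p l))) ≤ #(S l) + c := by
    intro l
    obtain ⟨h1, h2⟩ := mem_Ico.1 l.2
    have h3 := D.hpl l h1 h2
    have h4 := hφ (D.p l) (by omega)
    constructor
    · rw [card_N h4]
      apply hdg
      exact Finset.erase_mem_shadow (mem_O.1 h4).2 (mem_image_of_mem _ (mem_univ _))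
    · have h5 := card_bad (by omega) (j := D.p l) (by omega) hφ (D.s l)
      have h6 := Finset.card_filter_add_card_filter_not (s := N H (D.s l) (φ ∘ D.ι (D.p l)))
        (fun w => w ∈ (V D (c - 1)).image φ)
      have h7 : #(S l) = #((N H (D.s l) (φ ∘ D.ι (D.p l))).filter
        fun w => w ∉ (V D (c - 1)).image φ) := rfl
      omega
  have hall : ∀ L : Finset ↥(Ico c t), #L ≤ #(L.biUnion S) := by
    intro L
    by_contra hcon
    push Not at hcon
    have hL : L.Nonempty := by
      rw [← card_pos]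
      omega
    have h1 : ∀ l ∈ L, #(N H (D.s l) (φ ∘ D.ι (D.p l))) ≤ #L + c - 1 := by
      intro l hl
      have h2 : #(S l) ≤ #(L.biUnion S) := card_le_card (subset_biUnion_of_mem S hl)
      have h3 := (hN l).2
      omega
    have hM : 0 < ((#L + c - 1 : ℕ) : ℝ) := by
      have := card_pos.2 hL
      exact_mod_cast (by omega : 0 < #L + c - 1)
    have h2 : (#L : ℝ) / (#L + c - 1 : ℕ) ≤ W D H φ := by
      have h3 : ∑ l ∈ L, (1 : ℝ) / #(N H (D.s l) (φ ∘ D.ι (D.p l))) ≤ W D H φ := by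
        unfold W
        have h4 : ∑ l ∈ L, (1 : ℝ) / #(N H (D.s l) (φ ∘ D.ι (D.p l))) =
            ∑ l ∈ L.map (Embedding.subtype _), (1 : ℝ) / #(N H (D.s l) (φ ∘ D.ι (D.p l))) := by
          rw [Finset.sum_map]
          rfl
        rw [h4]
        apply Finset.sum_le_sum_of_subset_of_nonneg
        · intro l hl
          obtain ⟨l', _, rfl⟩ := mem_map.1 hl
          exact l'.2
        · intro l _ _
          positivity
      refine le_trans ?_ h3
      calc (#L : ℝ) / (#L + c - 1 : ℕ) = ∑ _l ∈ L, (1 : ℝ) / (#L + c - 1 : ℕ) := by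
            rw [Finset.sum_const, nsmul_eq_mul]
            ring
        _ ≤ _ := by
            refine Finset.sum_le_sum fun l hl => ?_
            have h5 : 0 < (#(N H (D.s l) (φ ∘ D.ι (D.p l))) : ℝ) := hβ.trans (hN l).1
            exact one_div_le_one_div_of_le h5 (by exact_mod_cast h1 l hl)
    obtain ⟨l, hl⟩ := hL
    have h3 : β < ((#L + c - 1 : ℕ) : ℝ) :=
      lt_of_lt_of_le (hN l).1 (by exact_mod_cast h1 l hl)
    have h4 : (#L : ℝ) / (#L + c - 1 : ℕ) = 1 - (c - 1) / (#L + c - 1 : ℕ) := by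
      rw [eq_sub_iff_add_eq, ← add_div, div_eq_one_iff_eq hM.ne', Nat.cast_sub (by omega)]
      push_cast
      ring
    have h5 : ((c : ℝ) - 1) / (#L + c - 1 : ℕ) ≤ (c - 1) / β :=
      div_le_div_of_nonneg_left (by linarith) hβ h3.le
    linarith
  obtain ⟨g, hg1, hg2⟩ := (Finset.all_card_le_biUnion_card_iff_exists_injective S).1 hall
  -- the embedding
  set f : ℕ → α := fun x =>
    if h : ∃ l, l ∈ Ico c t ∧ D.v l = x then g ⟨h.choose, h.choose_spec.1⟩ else φ x with hf
  have hfl : ∀ l (hl : l ∈ Ico c t), f (D.v l) = g ⟨l, hl⟩ := by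
    intro l hl
    have h : ∃ l', l' ∈ Ico c t ∧ D.v l' = D.v l := ⟨l, hl, rfl⟩
    rw [hf]
    simp only
    rw [dif_pos h]
    congr 1
    apply Subtype.ext
    obtain ⟨h1, h2⟩ := h.choose_spec
    exact D.vinj _ (mem_Ico.1 h1).1 (mem_Ico.1 h1).2 _ (mem_Ico.1 hl).1 (mem_Ico.1 hl).2 h2
  have hvV : ∀ l ∈ Ico c t, D.v l ∉ V D (c - 1) := by
    intro l hl
    obtain ⟨h1, h2⟩ := mem_Ico.1 hl
    exact notMem_V (by omega) h2 (by omega) (by omega)
  have hfV : ∀ x ∈ V D (c - 1), f x = φ x := by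
    intro x hx
    rw [hf]
    simp only
    rw [dif_neg]
    rintro ⟨l, hl, rfl⟩
    exact hvV l hl hx
  have hfι : ∀ k < c, f ∘ D.ι k = φ ∘ D.ι k := by
    intro k hk
    funext i
    exact hfV _ (mem_V.2 ⟨k, by omega, i, rfl⟩)
  refine ⟨f, ?_, ?_, ?_⟩
  · have hsep : ∀ x ∈ V D (c - 1), ∀ l (hl : l ∈ Ico c t), f x ≠ f (D.v l) := by
      intro x hx l hl hc'
      rw [hfV x hx, hfl l hl] at hc'
      exact (mem_filter.1 (hg2 ⟨l, hl⟩)).2 (mem_image.2 ⟨x, hx, hc'⟩)
    rintro x hx y hy hxy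
    rcases hx with hx | ⟨l, hl1, hl2, rfl⟩
    · rcases hy with hy | ⟨l, hl1, hl2, rfl⟩
      · rw [hfV x hx, hfV y hy] at hxy
        exact hinj (mem_coe.2 hx) (mem_coe.2 hy) hxy
      · exact absurd hxy (hsep x hx l (mem_Ico.2 ⟨hl1, hl2⟩))
    · rcases hy with hy | ⟨l', hl1', hl2', rfl⟩
      · exact absurd hxy.symm (hsep y hy l (mem_Ico.2 ⟨hl1, hl2⟩))
      · rw [hfl l (mem_Ico.2 ⟨hl1, hl2⟩), hfl l' (mem_Ico.2 ⟨hl1', hl2'⟩)] at hxy
        have := congrArg Subtype.val (hg1 hxy)
        simp only at this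
        rw [this]
  · intro k hk
    rw [hfι k hk]
    exact hφ k (by omega)
  · intro l hl1 hl2
    have hl : l ∈ Ico c t := mem_Ico.2 ⟨hl1, hl2⟩
    have h1 := D.hpl l hl1 hl2
    have h2 : f ∘ update (D.ι (D.p l)) (D.s l) (D.v l) =
        update (φ ∘ D.ι (D.p l)) (D.s l) (g ⟨l, hl⟩) := by
      funext i
      simp only [comp_apply]
      by_cases hi : i = D.s l
      · rw [hi, update_self, update_self, hfl l hl]
      · rw [update_of_ne hi, update_of_ne hi]
        exact congrFun (hfι _ h1) i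
    rw [h2]
    exact mem_N.1 (mem_filter.1 (hg2 ⟨l, hl⟩)).1

end Pool.Agent.Y85.KT
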