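import Pool.Agent.Y85.KT.Tup

set_option autoImplicit false
set_option linter.unusedSectionVars false

/-!
# Random homomorphisms of the trunk
-/

namespace Pool.Agent.Y85.KT

open Finset Function

variable {α : Type*} [Fintype α] [DecidableEq α] {r : ℕ}

/-- A tight tree with `t` edges and a trunk of `c` edges: `ι k` is an ordering of the vertices of
the trunk edge `k`; the edge `k` arises from the edge `p k` by replacing the entry `s k` by the new
vertex `v k`. -/
structure Dat (r c t : ℕ) where
  ι : ℕ → Fin r → ℕ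
  p : ℕ → ℕ
  s : ℕ → Fin r
  v : ℕ → ℕ
  hc : 1 ≤ c
  hct : c ≤ t
  inj : Injective (ι 0)
  hp : ∀ k, 1 ≤ k → k < c → p k < k
  hι : ∀ k, 1 ≤ k → k < c → ι k = update (ι (p k)) (s k) (v k)
  hpl : ∀ k, c ≤ k → k < t → p k < c
  hv : ∀ k, 1 ≤ k → k < t → ∀ j, j < k → j < c → v k ∉ Set.range (ι j)
  vinj : ∀ k, c ≤ k → k < t → ∀ l, c ≤ l → l < t → v k = v l → k = l

variable {c t : ℕ} (D : Dat r c t) (H : Finset (Finset α)) (a : α)

/-- expectation over the random homomorphisms of the first `k + 1` edges -/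
noncomputable def E : ℕ → ((ℕ → α) → ℝ) → ℝ
  | 0, F => (∑ τ ∈ O H r, F (extend (D.ι 0) τ fun _ => a)) / #(O H r)
  | k + 1, F => E k fun φ => (∑ w ∈ N H (D.s (k + 1)) (φ ∘ D.ι (D.p (k + 1))),
      F (update φ (D.v (k + 1)) w)) / #(N H (D.s (k + 1)) (φ ∘ D.ι (D.p (k + 1))))

/-- homomorphisms of the first `k + 1` edges -/
def Good (k : ℕ) (φ : ℕ → α) : Prop := ∀ j ≤ k, φ ∘ D.ι j ∈ O H r

variable {D H a}

lemma comp_update_of_notMem {φ : ℕ → α} {v : ℕ} {w : α} {f : Fin r → ℕ} (h : v ∉ Set.range f) :
    update φ v w ∘ f = φ ∘ f := by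
  funext i
  simp only [comp_apply]
  rw [update_of_ne]
  exact fun hc => h ⟨i, hc⟩

lemma comp_update {φ : ℕ → α} {v : ℕ} {w : α} {f : Fin r → ℕ} {s : Fin r}
    (h : v ∉ Set.range f) : update φ v w ∘ update f s v = update (φ ∘ f) s w := by
  funext i
  simp only [comp_apply]
  by_cases hi : i = s
  · subst hi
    rw [update_self, update_self, update_self]
  · rw [update_of_ne hi, update_of_ne hi, update_of_ne]
    · rfl
    · exact fun hc => h ⟨i, hc⟩

lemma Good.step {k : ℕ} (hk : k + 1 < c) {φ : ℕ → α} (h : Good D H k φ) {w : α}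
    (hw : w ∈ N H (D.s (k + 1)) (φ ∘ D.ι (D.p (k + 1)))) :
    Good D H (k + 1) (update φ (D.v (k + 1)) w) := by
  have hct := D.hct
  intro j hj
  have hp := D.hp (k + 1) (by omega) hk
  rcases Nat.lt_or_ge j (k + 1) with h1 | h1
  · rw [comp_update_of_notMem (D.hv (k + 1) (by omega) (by omega) j h1 (by omega))]
    exact h j (by omega)
  · have : j = k + 1 := by omega
    subst this
    rw [D.hι (k + 1) (by omega) hk,
      comp_update (D.hv (k + 1) (by omega) (by omega) _ hp (by omega))]
    exact mem_N.1 hw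

lemma good_zero {τ : Fin r → α} (hτ : τ ∈ O H r) :
    Good D H 0 (extend (D.ι 0) τ fun _ => a) := by
  intro j hj
  have : j = 0 := by omega
  subst this
  have h1 : (extend (D.ι 0) τ fun _ => a) ∘ D.ι 0 = τ := by
    funext i
    exact D.inj.extend_apply _ _ _
  rw [h1]
  exact hτ

lemma E_mono {k : ℕ} (hk : k < c) {F G : (ℕ → α) → ℝ} (h : ∀ φ, Good D H k φ → F φ ≤ G φ) :
    E D H a k F ≤ E D H a k G := by
  induction k generalizing F G with
  | zero =>
    unfold E
    refine div_le_div_of_nonneg_right (Finset.sum_le_sum fun τ hτ => ?_) (by positivity)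
    exact h _ (good_zero hτ)
  | succ k ih =>
    unfold E
    refine ih (by omega) fun φ hφ => ?_
    refine div_le_div_of_nonneg_right (Finset.sum_le_sum fun w hw => ?_) (by positivity)
    exact h _ (hφ.step hk hw)

lemma E_congr {k : ℕ} (hk : k < c) {F G : (ℕ → α) → ℝ} (h : ∀ φ, Good D H k φ → F φ = G φ) :
    E D H a k F = E D H a k G :=
  le_antisymm (E_mono hk fun φ hφ => (h φ hφ).le) (E_mono hk fun φ hφ => (h φ hφ).ge)

lemma E_add (k : ℕ) (F G : (ℕ → α) → ℝ) :
    E D H a k (fun φ => F φ + G φ) = E D H a k F + E D H a k G := by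
  induction k generalizing F G with
  | zero =>
    unfold E
    rw [← add_div, ← Finset.sum_add_distrib]
  | succ k ih =>
    unfold E
    rw [← ih]
    congr 1
    funext φ
    rw [← add_div, ← Finset.sum_add_distrib]

lemma E_mul (k : ℕ) (b : ℝ) (F : (ℕ → α) → ℝ) :
    E D H a k (fun φ => b * F φ) = b * E D H a k F := by
  induction k generalizing F with
  | zero =>
    unfold E
    rw [← Finset.mul_sum, mul_div_assoc]
  | succ k ih =>
    unfold E
    rw [← ih]
    congr 1
    funext φ
    rw [← Finset.mul_sum, mul_div_assoc]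

lemma E_zero (k : ℕ) : E D H a k (fun _ => 0) = 0 := by
  have := E_mul (D := D) (H := H) (a := a) k 0 (fun _ => 0)
  simpa using this

lemma E_sum {β : Type*} (k : ℕ) (S : Finset β) (F : β → (ℕ → α) → ℝ) :
    E D H a k (fun φ => ∑ i ∈ S, F i φ) = ∑ i ∈ S, E D H a k (F i) := by
  classical
  induction S using Finset.induction_on with
  | empty => simpa using E_zero (D := D) (H := H) (a := a) k
  | insert i S hi ih =>
    rw [Finset.sum_insert hi, ← ih, ← E_add]
    congr 1
    funext φ
    rw [Finset.sum_insert hi]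

lemma E_indep {k : ℕ} (hk : k + 1 < c) {F : (ℕ → α) → ℝ}
    (h : ∀ φ w, F (update φ (D.v (k + 1)) w) = F φ) :
    E D H a (k + 1) F = E D H a k F := by
  show E D H a k _ = _
  refine E_congr (by omega) fun φ hφ => ?_
  have hp := D.hp (k + 1) (by omega) hk
  have h1 : 0 < #(N H (D.s (k + 1)) (φ ∘ D.ι (D.p (k + 1)))) := N_pos (hφ _ (by omega))
  rw [Finset.sum_congr rfl fun w _ => h φ w, Finset.sum_const, nsmul_eq_mul]
  field_simp

lemma E_const (hO : (O H r).Nonempty) {k : ℕ} (hk : k < c) (b : ℝ) :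
    E D H a k (fun _ => b) = b := by
  induction k with
  | zero =>
    have h1 := card_pos.2 hO
    unfold E
    rw [Finset.sum_const, nsmul_eq_mul]
    field_simp
  | succ k ih =>
    rw [E_indep hk fun _ _ => rfl]
    exact ih (by omega)

/-- all edges are uniformly distributed -/
lemma E_marg {k : ℕ} (hk : k < c) {j : ℕ} (hj : j ≤ k) (G : (Fin r → α) → ℝ) :
    E D H a k (fun φ => G (φ ∘ D.ι j)) = (∑ τ ∈ O H r, G τ) / #(O H r) := by
  have hct := D.hct
  induction k generalizing j G with
  | zero =>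
    have : j = 0 := by omega
    subst this
    unfold E
    congr 1
    refine Finset.sum_congr rfl fun τ _ => ?_
    show G ((extend (D.ι 0) τ fun _ => a) ∘ D.ι 0) = G τ
    congr 1
    funext i
    exact D.inj.extend_apply _ _ _
  | succ k ih =>
    have hp := D.hp (k + 1) (by omega) hk
    rcases Nat.lt_or_ge j (k + 1) with h1 | h1
    · rw [E_indep hk, ih (by omega) (by omega)]
      intro φ w
      rw [comp_update_of_notMem (D.hv (k + 1) (by omega) (by omega) j h1 (by omega))]
    · have : j = k + 1 := by omega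
      subst this
      have h2 := ih (by omega) (j := D.p (k + 1)) (by omega)
        (fun τ => (∑ w ∈ N H (D.s (k + 1)) τ, G (update τ (D.s (k + 1)) w)) /
          #(N H (D.s (k + 1)) τ))
      rw [invariance] at h2
      rw [← h2]
      show E D H a k _ = _
      refine E_congr (by omega) fun φ _ => ?_
      congr 1
      refine Finset.sum_congr rfl fun w _ => ?_
      show G (update φ (D.v (k + 1)) w ∘ D.ι (k + 1)) = _
      rw [D.hι (k + 1) (by omega) hk,
        comp_update (D.hv (k + 1) (by omega) (by omega) _ hp (by omega))]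

/-- the vertices of the first `k + 1` edges -/
def V (D : Dat r c t) (k : ℕ) : Finset ℕ := (range (k + 1)).biUnion fun j => univ.image (D.ι j)

lemma mem_V {k x : ℕ} : x ∈ V D k ↔ ∃ j ≤ k, x ∈ Set.range (D.ι j) := by
  unfold V
  simp only [mem_biUnion, mem_range, mem_image, mem_univ, true_and, Set.mem_range]
  constructor
  · rintro ⟨j, hj, h⟩
    exact ⟨j, by omega, h⟩
  · rintro ⟨j, hj, h⟩
    exact ⟨j, by omega, h⟩

lemma V_succ {k : ℕ} (hk : k + 1 < c) : V D (k + 1) = insert (D.v (k + 1)) (V D k) := by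
  have hp := D.hp (k + 1) (by omega) hk
  ext x
  rw [mem_insert, mem_V, mem_V]
  constructor
  · rintro ⟨j, hj, i, rfl⟩
    rcases Nat.lt_or_ge j (k + 1) with h1 | h1
    · exact Or.inr ⟨j, by omega, i, rfl⟩
    · have : j = k + 1 := by omega
      subst this
      rw [D.hι (k + 1) (by omega) hk]
      by_cases hi : i = D.s (k + 1)
      · left
        rw [hi, update_self]
      · right
        rw [update_of_ne hi]
        exact ⟨D.p (k + 1), by omega, i, rfl⟩
  · rintro (rfl | ⟨j, hj, h⟩)
    · refine ⟨k + 1, le_rfl, D.s (k + 1), ?_⟩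
      rw [D.hι (k + 1) (by omega) hk, update_self]
    · exact ⟨j, by omega, h⟩

lemma notMem_V {k l : ℕ} (h1 : 1 ≤ l) (hl : l < t) (hkl : k < l) (hk : k < c) :
    D.v l ∉ V D k := by
  rw [mem_V]
  rintro ⟨j, hj, h⟩
  exact D.hv l h1 hl j (by omega) (by omega) h

lemma card_V {k : ℕ} (hk : k < c) : #(V D k) ≤ r + k := by
  induction k with
  | zero =>
    unfold V
    simp only [zero_add, range_one, singleton_biUnion, add_zero]
    refine card_image_le.trans ?_
    simp
  | succ k ih =>
    rw [V_succ hk]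
    refine (card_insert_le _ _).trans ?_
    have := ih (by omega)
    omega

/-- at most `k + 1` vertices must be avoided -/
lemma card_bad {k j : ℕ} (hk : k < c) (hj : j ≤ k) {φ : ℕ → α} (hφ : Good D H k φ) (s : Fin r) :
    #((N H s (φ ∘ D.ι j)).filter fun w => w ∈ (V D k).image φ) ≤ k + 1 := by
  have hO := hφ j hj
  obtain ⟨h1, h2⟩ := mem_O.1 hO
  have hsub : ((N H s (φ ∘ D.ι j)).filter fun w => w ∈ (V D k).image φ) ⊆
      ((V D k) \ ((univ.erase s).image (D.ι j))).image φ := by
    intro w hw
    obtain ⟨h3, h4⟩ := mem_filter.1 hw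
    obtain ⟨x, hx, rfl⟩ := mem_image.1 h4
    refine mem_image.2 ⟨x, mem_sdiff.2 ⟨hx, fun hc => ?_⟩, rfl⟩
    have h5 := (mem_O.1 (mem_N.1 h3)).1
    rw [update_injective h1] at h5
    apply h5
    obtain ⟨i, hi, rfl⟩ := mem_image.1 hc
    exact mem_image.2 ⟨i, hi, rfl⟩
  have hinj : Injective (D.ι j) := h1.of_comp
  have hg : #((univ.erase s).image (D.ι j)) = r - 1 := by
    rw [card_image_of_injective _ hinj, card_erase_of_mem (mem_univ _), card_univ,
      Fintype.card_fin]
  have hgs : (univ.erase s).image (D.ι j) ⊆ V D k := by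
    intro x hx
    obtain ⟨i, _, rfl⟩ := mem_image.1 hx
    exact mem_V.2 ⟨j, hj, i, rfl⟩
  have hr : 1 ≤ r := by
    have := s.2
    omega
  calc _ ≤ #(((V D k) \ ((univ.erase s).image (D.ι j))).image φ) := card_le_card hsub
    _ ≤ #((V D k) \ ((univ.erase s).image (D.ι j))) := card_image_le
    _ ≤ k + 1 := by
      rw [card_sdiff_of_subset hgs, hg]
      have := card_V (D := D) hk
      omega

open Classical in
/-- the new vertex `v (k + 1)` is mapped to an old one -/
noncomputable def bad (D : Dat r c t) (k : ℕ) (φ : ℕ → α) : ℝ :=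
  if φ (D.v (k + 1)) ∈ (V D k).image φ then 1 else 0

lemma bad_nonneg (k : ℕ) (φ : ℕ → α) : 0 ≤ bad D k φ := by
  unfold bad
  split_ifs <;> norm_num

lemma bad_update {k l : ℕ} (hkl : k + 1 < l) (hl : l < t) (hkc : k + 1 < c) (φ : ℕ → α) (w : α) :
    bad D k (update φ (D.v l) w) = bad D k φ := by
  have h1 : D.v (k + 1) ≠ D.v l := by
    intro hc
    have h2 : D.v l ∉ V D (k + 1) := notMem_V (by omega) hl hkl hkc
    rw [V_succ hkc, mem_insert, not_or] at h2
    exact h2.1 hc.symm
  have h2 : (V D k).image (update φ (D.v l) w) = (V D k).image φ := by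
    apply Finset.image_congr
    intro x hx
    have h3 : x ≠ D.v l := by
      rintro rfl
      exact notMem_V (D := D) (k := k) (l := l) (by omega) hl (by omega) (by omega) (mem_coe.1 hx)
    exact update_of_ne h3 _ _
  unfold bad
  rw [h2, update_of_ne h1]

/-- the average of the inverse of the degree of a facet -/
noncomputable def xx (H : Finset (Finset α)) (r : ℕ) : ℝ := #(H.shadow) / (r * #H)

lemma avg_inv (hr : ∀ h ∈ H, #h = r) (hH : H.Nonempty) (s : Fin r) :
    (∑ τ ∈ O H r, (1 : ℝ) / #(N H s τ)) / #(O H r) = xx H r := by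
  have h1 := sum_inv hr s
  have h2 := card_O hr
  have h3 : (0 : ℝ) < #H := by exact_mod_cast card_pos.2 hH
  have h4 : (0 : ℝ) < r.factorial := by exact_mod_cast r.factorial_pos
  have h5 : (0 : ℝ) < r := by
    have := s.2
    exact_mod_cast (by omega : 0 < r)
  unfold xx
  rw [h2, div_eq_div_iff (by positivity) (by positivity)]
  linear_combination (#H : ℝ) * h1

lemma E_bad (hr : ∀ h ∈ H, #h = r) (hH : H.Nonempty) {k : ℕ} (hk : k + 1 < c) :
    E D H a (k + 1) (bad D k) ≤ (k + 1) * xx H r := by
  have hct := D.hct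
  have hp := D.hp (k + 1) (by omega) hk
  have h1 : E D H a (k + 1) (bad D k) ≤ E D H a k
      (fun φ => (k + 1 : ℝ) * (1 / #(N H (D.s (k + 1)) (φ ∘ D.ι (D.p (k + 1)))))) := by
    show E D H a k _ ≤ _
    refine E_mono (by omega) fun φ hφ => ?_
    have h2 := card_bad (by omega) (j := D.p (k + 1)) (by omega) hφ (D.s (k + 1))
    have h3 : ∑ w ∈ N H (D.s (k + 1)) (φ ∘ D.ι (D.p (k + 1))),
        bad D k (update φ (D.v (k + 1)) w) ≤ k + 1 := by
      have h4 : ∀ w ∈ N H (D.s (k + 1)) (φ ∘ D.ι (D.p (k + 1))),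
          bad D k (update φ (D.v (k + 1)) w) = if w ∈ (V D k).image φ then 1 else 0 := by
        intro w _
        have h5 : (V D k).image (update φ (D.v (k + 1)) w) = (V D k).image φ := by
          apply Finset.image_congr
          intro x hx
          have h3 : x ≠ D.v (k + 1) := by
            rintro rfl
            exact notMem_V (D := D) (k := k) (l := k + 1) (by omega) (by omega) (by omega)
              (by omega) (mem_coe.1 hx)
          exact update_of_ne h3 _ _
        unfold bad
        rw [h5, update_self]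
      rw [Finset.sum_congr rfl h4, ← Finset.sum_filter, Finset.sum_const, nsmul_eq_mul, mul_one]
      exact_mod_cast h2
    rw [mul_one_div]
    exact div_le_div_of_nonneg_right h3 (by positivity)
  refine h1.trans ?_
  rw [E_mul, E_marg (by omega) (by omega) (fun τ => (1 : ℝ) / #(N H (D.s (k + 1)) τ)),
    avg_inv hr hH]

lemma E_bad' (hr : ∀ h ∈ H, #h = r) (hH : H.Nonempty) {k l : ℕ} (hk : k + 1 ≤ l) (hl : l < c) :
    E D H a l (bad D k) ≤ (k + 1) * xx H r := by
  have hct := D.hct
  induction l with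
  | zero => omega
  | succ l ih =>
    rcases Nat.lt_or_ge (k + 1) (l + 1) with h1 | h1
    · rw [E_indep hl]
      · exact ih (by omega) (by omega)
      · intro φ w
        exact bad_update (by omega) (by omega) (by omega) φ w
    · have : l = k := by omega
      subst this
      exact E_bad hr hH hl

end Pool.Agent.Y85.KT
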