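import Pool.Agent.Y85.KT.Core

set_option autoImplicit false
set_option linter.unusedSectionVars false

/-!
# Kalai's conjecture up to a small additive constant for trees with a bounded trunk
-/

namespace Pool.Agent.Y85.KT

open Finset Function

/-- replacing one entry of an ordering -/
lemma exists_slot {r : ℕ} {ι : Fin r → ℕ} (hι : Injective ι) {A B : Finset ℕ}
    (hA : univ.image ι = A) (hB : #B = r) {v : ℕ} (hv : v ∈ B) (hvA : v ∉ A)
    (hBA : B \ {v} ⊆ A) : ∃ s, univ.image (update ι s v) = B ∧ Injective (update ι s v) := by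
  have hAc : #A = r := by
    rw [← hA, card_image_of_injective _ hι, card_univ, Fintype.card_fin]
  have hB1 : #(B \ {v}) + 1 = r := by
    rw [sdiff_singleton_eq_erase, card_erase_of_mem hv, hB]
    have := card_pos.2 ⟨v, hv⟩
    omega
  obtain ⟨u, hu, hu'⟩ : ∃ u ∈ A, u ∉ B \ {v} := by
    by_contra hcon
    push Not at hcon
    have := card_le_card (fun x hx => hcon x hx : A ⊆ B \ {v})
    omega
  have h1 : B \ {v} = A.erase u := by
    apply Finset.eq_of_subset_of_card_le
    · intro x hx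
      exact mem_erase.2 ⟨fun hc => hu' (hc ▸ hx), hBA hx⟩
    · rw [card_erase_of_mem hu]
      omega
  rw [← hA] at hu
  obtain ⟨s, _, hs⟩ := mem_image.1 hu
  refine ⟨s, ?_, ?_⟩
  · rw [image_update, ← image_erase hι, hA, hs, ← h1, sdiff_singleton_eq_erase, insert_erase hv]
  · rw [update_injective hι, ← image_erase hι, hA]
    exact fun hc => hvA (mem_of_mem_erase hc)

variable {α : Type*} [Fintype α] [DecidableEq α]

lemma image_comp_mem {r : ℕ} {H : Finset (Finset α)} {f : ℕ → α} {ι : Fin r → ℕ} {A : Finset ℕ}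
    (h : f ∘ ι ∈ O H r) (hA : univ.image ι = A) : A.image f ∈ H := by
  rw [← hA, Finset.image_image]
  exact (mem_O.1 h).2

/-- tight trees as data -/
theorem exists_dat {r t c : ℕ} (hr : 1 ≤ r) (hc : 1 ≤ c) (hct : c ≤ t) {e : ℕ → Finset ℕ}
    (hcard : ∀ i, i < t → #(e i) = r)
    (htree : ∀ i, 0 < i → i < t →
      ∃ v ∈ e i, (∀ j, j < i → v ∉ e j) ∧ ∃ j, j < i ∧ e i \ {v} ⊆ e j)
    (htrunk : ∀ v, (∀ i < c, v ∉ e i) → ∀ i < t, ∀ j < t, v ∈ e i → v ∈ e j → i = j) :
    ∃ D : Dat r c t, (∀ k < c, univ.image (D.ι k) = e k) ∧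
      ∀ k, c ≤ k → k < t → univ.image (update (D.ι (D.p k)) (D.s k) (D.v k)) = e k := by
  classical
  -- new vertices
  have h1 : ∀ i, ∃ v, 0 < i → i < t →
      v ∈ e i ∧ (∀ j, j < i → v ∉ e j) ∧ ∃ j, j < i ∧ e i \ {v} ⊆ e j := by
    intro i
    by_cases h : 0 < i ∧ i < t
    · obtain ⟨v, h2, h3, h4⟩ := htree i h.1 h.2
      exact ⟨v, fun _ _ => ⟨h2, h3, h4⟩⟩
    · exact ⟨0, fun h2 h3 => absurd ⟨h2, h3⟩ h⟩
  choose v hv using h1
  -- parents
  have h2 : ∀ i, 0 < i → i < t → ∃ p, (i < c → p < i) ∧ (c ≤ i → p < c) ∧ e i \ {v i} ⊆ e p := by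
    intro i
    induction i using Nat.strong_induction_on with
    | _ i ih =>
      intro hi0 hit
      obtain ⟨hvi, hvj, j, hj, hj'⟩ := hv i hi0 hit
      rcases Nat.lt_or_ge i c with hic | hic
      · exact ⟨j, fun _ => hj, fun h => by omega, hj'⟩
      · rcases Nat.lt_or_ge j c with hjc | hjc
        · exact ⟨j, fun h => by omega, fun _ => hjc, hj'⟩
        · obtain ⟨p, hp1, hp2, hp3⟩ := ih j hj (by omega) (by omega)
          refine ⟨p, fun h => by omega, fun _ => hp2 hjc, ?_⟩
          obtain ⟨hvj1, hvj2, _⟩ := hv j (by omega) (by omega)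
          intro x hx
          apply hp3
          rw [mem_sdiff, mem_singleton]
          refine ⟨hj' hx, ?_⟩
          rintro rfl
          have := htrunk (v j) (fun i' hi' => hvj2 i' (by omega)) i hit j (by omega)
            (mem_sdiff.1 hx).1 hvj1
          omega
  have h3 : ∀ i, ∃ p, 0 < i → i < t → (i < c → p < i) ∧ (c ≤ i → p < c) ∧ e i \ {v i} ⊆ e p := by
    intro i
    by_cases h : 0 < i ∧ i < t
    · obtain ⟨p, hp⟩ := h2 i h.1 h.2
      exact ⟨p, fun _ _ => hp⟩
    · exact ⟨0, fun h4 h5 => absurd ⟨h4, h5⟩ h⟩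
  choose p hp using h3
  -- orderings
  have h4 : ∀ m, ∃ (ι : ℕ → Fin r → ℕ) (s : ℕ → Fin r), ∀ k, k < m → k < c →
      univ.image (ι k) = e k ∧ Injective (ι k) ∧
        (1 ≤ k → ι k = update (ι (p k)) (s k) (v k)) := by
    intro m
    induction m with
    | zero => exact ⟨fun _ _ => 0, fun _ => ⟨0, by omega⟩, fun k hk => by omega⟩
    | succ m ih =>
      obtain ⟨ι, s, h⟩ := ih
      by_cases hmc : m < c
      · rcases Nat.eq_zero_or_pos m with hm | hm
        · subst hm
          have h5 : #(e 0) = r := hcard 0 (by omega)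
          have e0 : Fin r ≃ e 0 := (Fintype.equivFinOfCardEq (by rw [Fintype.card_coe, h5])).symm
          refine ⟨fun _ i => e0 i, s, ?_⟩
          intro k hk _
          have : k = 0 := by omega
          subst this
          refine ⟨?_, ?_, fun h => by omega⟩
          · ext x
            simp only [mem_image, mem_univ, true_and]
            constructor
            · rintro ⟨a, rfl⟩
              exact (e0 a).2
            · intro hx
              exact ⟨e0.symm ⟨x, hx⟩, by simp⟩
          · intro a b hab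
            exact e0.injective (Subtype.ext hab)
        · have hpm := (hp m hm (by omega)).1 hmc
          obtain ⟨h5, h6, _⟩ := h (p m) hpm (by omega)
          obtain ⟨hv1, hv2, _⟩ := hv m hm (by omega)
          obtain ⟨s₀, hs1, hs2⟩ := exists_slot h6 h5 (hcard m (by omega)) hv1 (hv2 _ hpm)
            (hp m hm (by omega)).2.2
          refine ⟨update ι m (update (ι (p m)) s₀ (v m)), update s m s₀, ?_⟩
          intro k hk hkc
          by_cases hkm : k = m
          · subst hkm
            rw [update_self, update_self, update_of_ne (by omega)]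
            exact ⟨hs1, hs2, fun _ => rfl⟩
          · rw [update_of_ne hkm, update_of_ne hkm]
            obtain ⟨h7, h8, h9⟩ := h k (by omega) hkc
            refine ⟨h7, h8, fun hk1 => ?_⟩
            have := (hp k hk1 (by omega)).1 hkc
            rw [update_of_ne (by omega)]
            exact h9 hk1
      · exact ⟨ι, s, fun k hk hkc => h k (by omega) hkc⟩
  obtain ⟨ι, s, h⟩ := h4 c
  -- slots of the leaves
  have h5 : ∀ k, ∃ s' : Fin r, c ≤ k → k < t → univ.image (update (ι (p k)) s' (v k)) = e k := by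
    intro k
    by_cases hk : c ≤ k ∧ k < t
    · have hpk := (hp k (by omega) hk.2).2.1 hk.1
      obtain ⟨h6, h7, _⟩ := h (p k) hpk hpk
      obtain ⟨hv1, hv2, _⟩ := hv k (by omega) hk.2
      obtain ⟨s₀, hs1, _⟩ := exists_slot h7 h6 (hcard k hk.2) hv1 (hv2 _ (by omega))
        (hp k (by omega) hk.2).2.2
      exact ⟨s₀, fun _ _ => hs1⟩
    · exact ⟨⟨0, by omega⟩, fun h6 h7 => absurd ⟨h6, h7⟩ hk⟩
  choose s' hs' using h5
  have hrange : ∀ j < c, ∀ x, x ∈ Set.range (ι j) → x ∈ e j := by
    rintro j hj x ⟨i, rfl⟩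
    rw [← (h j hj hj).1]
    exact mem_image_of_mem _ (mem_univ _)
  refine ⟨⟨ι, p, fun k => if k < c then s k else s' k, v, hc, hct, (h 0 hc hc).2.1, ?_, ?_, ?_, ?_,
    ?_⟩, ?_, ?_⟩
  · intro k hk hkc
    exact (hp k (by omega) (by omega)).1 hkc
  · intro k hk hkc
    simp only [hkc, if_true]
    exact (h k hkc hkc).2.2 hk
  · intro k hk hkt
    exact (hp k (by omega) hkt).2.1 hk
  · intro k hk hkt j hj hjc hcon
    exact (hv k (by omega) hkt).2.1 j hj (hrange j hjc _ hcon)
  · intro k hk hkt l hl hlt hkl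
    obtain ⟨h6, h7, _⟩ := hv k (by omega) hkt
    obtain ⟨h8, _, _⟩ := hv l (by omega) hlt
    rw [← hkl] at h8
    exact htrunk (v k) (fun i hi => h7 i (by omega)) k hkt l hlt h6 h8
  · intro k hk
    exact (h k hk hk).1
  · intro k hk hkt
    have : ¬ k < c := by omega
    simp only [this, if_false]
    exact hs' k hk hkt

/-- a subhypergraph with large codegrees -/
lemma exists_sub {r : ℕ} {H : Finset (Finset α)} (hr : ∀ h ∈ H, #h = r) {β : ℝ} (hβ : 0 < β)
    (h : β * #(H.shadow) < #H) :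
    ∃ H' ⊆ H, H'.Nonempty ∧ β * #(H'.shadow) < #H' ∧ ∀ g ∈ H'.shadow, β < dg H' g := by
  classical
  have hne : (H.powerset.filter fun H' => β * #(H'.shadow) < #H').Nonempty :=
    ⟨H, mem_filter.2 ⟨mem_powerset_self _, h⟩⟩
  obtain ⟨H', hH', hmin⟩ := exists_min_image _ (fun H' => #H') hne
  obtain ⟨h1, h2⟩ := mem_filter.1 hH'
  rw [mem_powerset] at h1
  refine ⟨H', h1, ?_, h2, ?_⟩
  · rw [← card_pos]
    have : (0 : ℝ) < #H' := lt_of_le_of_lt (by positivity) h2
    exact_mod_cast this
  · intro g hg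
    by_contra hcon
    push Not at hcon
    have hg' := Finset.mem_shadow_iff_insert_mem.1 hg
    obtain ⟨w, hw, hwH⟩ := hg'
    have hgc : #g + 1 = r := by
      rw [← hr _ (h1 hwH), card_insert_of_notMem hw]
    have h3 : #(H'.filter fun h => g ⊆ h) ≤ dg H' g := by
      have h4 : (H'.filter fun h => g ⊆ h) ⊆
          (univ.filter fun w => w ∉ g ∧ insert w g ∈ H').image fun w => insert w g := by
        intro h hh
        obtain ⟨hhH, hgh⟩ := mem_filter.1 hh
        have h5 : #(h \ g) = 1 := by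
          rw [card_sdiff_of_subset hgh, hr _ (h1 hhH)]
          omega
        obtain ⟨x, hx⟩ := card_eq_one.1 h5
        have hx' : x ∈ h \ g := hx ▸ mem_singleton_self x
        obtain ⟨hx1, hx2⟩ := mem_sdiff.1 hx'
        have h6 : insert x g = h := by
          apply Finset.eq_of_subset_of_card_le
          · exact insert_subset hx1 hgh
          · rw [card_insert_of_notMem hx2, hr _ (h1 hhH)]
            omega
        exact mem_image.2 ⟨x, mem_filter.2 ⟨mem_univ _, hx2, h6 ▸ hhH⟩, h6⟩
      exact (card_le_card h4).trans card_image_le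
    set H'' := H'.filter fun h => ¬ g ⊆ h with hH''
    have h4 := Finset.card_filter_add_card_filter_not (s := H') (fun h => g ⊆ h)
    have h5 : H''.shadow ⊆ H'.shadow.erase g := by
      intro x hx
      obtain ⟨y, hy, hyH⟩ := Finset.mem_shadow_iff_insert_mem.1 hx
      obtain ⟨h6, h7⟩ := mem_filter.1 hyH
      refine mem_erase.2 ⟨?_, Finset.mem_shadow_iff_insert_mem.2 ⟨y, hy, h6⟩⟩
      rintro rfl
      exact h7 (subset_insert _ _)
    have h6 : #(H''.shadow) + 1 ≤ #(H'.shadow) := by
      have := card_le_card h5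
      rw [card_erase_of_mem hg] at this
      have := card_pos.2 ⟨g, hg⟩
      omega
    have h7 : β * #(H''.shadow) < #H'' := by
      have h8 : (#(H''.shadow) : ℝ) + 1 ≤ #(H'.shadow) := by exact_mod_cast h6
      have h9 : (#H' : ℝ) = #(H'.filter fun h => g ⊆ h) + #H'' := by exact_mod_cast h4.symm
      have h10 : (#(H'.filter fun h => g ⊆ h) : ℝ) ≤ β := le_trans (by exact_mod_cast h3) hcon
      nlinarith
    have h8 := hmin H'' (mem_filter.2 ⟨mem_powerset.2 ((filter_subset _ _).trans h1), h7⟩)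
    have h9 : 0 < #(H'.filter fun h => g ⊆ h) :=
      card_pos.2 ⟨insert w g, mem_filter.2 ⟨hwH, subset_insert _ _⟩⟩
    have h10 : #H'' = #(H'.filter fun h => ¬ g ⊆ h) := rfl
    have h11 : #H' ≤ #H'' := h8
    omega

/-- the bound -/
theorem bound {r t c : ℕ} (hr : 1 ≤ r) (hc : 1 ≤ c) (hct : c ≤ t) {e : ℕ → Finset ℕ}
    (hcard : ∀ i, i < t → #(e i) = r)
    (htree : ∀ i, 0 < i → i < t →
      ∃ v ∈ e i, (∀ j, j < i → v ∉ e j) ∧ ∃ j, j < i ∧ e i \ {v} ⊆ e j)
    (htrunk : ∀ v, (∀ i < c, v ∉ e i) → ∀ i < t, ∀ j < t, v ∈ e i → v ∈ e j → i = j)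
    {H : Finset (Finset α)} (hH : ∀ h ∈ H, #h = r)
    (hfree : ¬ ∃ f : ℕ → α, Set.InjOn f {x | ∃ i, i < t ∧ x ∈ e i} ∧
      ∀ i, i < t → (e i).image f ∈ H) :
    (#H : ℝ) ≤ (((t : ℝ) - 1) / r + (c - 1) * (1 + (c - 2) / (2 * r))) * #(H.shadow) := by
  classical
  have hr' : (1 : ℝ) ≤ r := by exact_mod_cast hr
  have hc' : (1 : ℝ) ≤ c := by exact_mod_cast hc
  have hct' : (c : ℝ) ≤ t := by exact_mod_cast hct
  obtain ⟨D, hD1, hD2⟩ := exists_dat hr hc hct hcard htree htrunk
  rcases Nat.lt_or_ge t 2 with ht | ht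
  · -- one edge
    have ht1 : t = 1 := by omega
    have hH0 : H = ∅ := by
      rw [Finset.eq_empty_iff_forall_notMem]
      intro h hh
      apply hfree
      have e0 : e 0 ≃ h := Finset.equivOfCardEq (by rw [hcard 0 (by omega), hH h hh])
      obtain ⟨a, _⟩ : h.Nonempty := card_pos.1 (by rw [hH h hh]; omega)
      refine ⟨fun x => if hx : x ∈ e 0 then e0 ⟨x, hx⟩ else a, ?_, ?_⟩
      · rintro x ⟨i, hi, hx⟩ y ⟨j, hj, hy⟩ hxy
        have hi0 : i = 0 := by omega
        have hj0 : j = 0 := by omega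
        subst hi0
        subst hj0
        simp only at hxy
        rw [dif_pos hx, dif_pos hy] at hxy
        have := e0.injective (Subtype.ext hxy)
        exact congrArg Subtype.val this
      · intro i hi
        have hi0 : i = 0 := by omega
        subst hi0
        have : (e 0).image (fun x => if hx : x ∈ e 0 then ((e0 ⟨x, hx⟩ : h) : α) else a) = h := by
          ext y
          rw [mem_image]
          constructor
          · rintro ⟨x, hx, rfl⟩
            rw [dif_pos hx]
            exact (e0 ⟨x, hx⟩).2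
          · intro hy
            refine ⟨(e0.symm ⟨y, hy⟩ : e 0), (e0.symm ⟨y, hy⟩).2, ?_⟩
            rw [dif_pos (e0.symm ⟨y, hy⟩).2]
            simp
        rw [this]
        exact hh
    rw [hH0]
    simp
  · by_contra hcon
    push Not at hcon
    set β : ℝ := ((t : ℝ) - 1) / r + (c - 1) * (1 + (c - 2) / (2 * r)) with hβ
    have hb : (r : ℝ) * β = (t - c) + c * (c - 1) / 2 + r * (c - 1) := by
      rw [hβ]
      field_simp
      ring
    have hβ0 : 0 < β := by
      have h1 : 0 < (r : ℝ) * β := by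
        rw [hb]
        have ht' : (2 : ℝ) ≤ t := by exact_mod_cast ht
        have h2 : 0 ≤ (c : ℝ) * (c - 1) / 2 := by
          have := mul_nonneg (by linarith : (0:ℝ) ≤ c) (by linarith : (0:ℝ) ≤ (c:ℝ) - 1)
          linarith
        have h3 : (c : ℝ) - 1 ≤ r * (c - 1) := by nlinarith
        linarith
      exact (mul_pos_iff_of_pos_left (by linarith : (0 : ℝ) < r)).1 h1
    obtain ⟨H', hH'1, hH'2, hH'3, hH'4⟩ := exists_sub hH hβ0 hcon
    obtain ⟨f, hf1, hf2, hf3⟩ := exists_embedding (D := D) (fun h hh => hH h (hH'1 hh)) hH'2 hr hβ0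
      hH'3 hH'4 ht hb
    apply hfree
    refine ⟨f, ?_, ?_⟩
    · apply hf1.mono
      rintro x ⟨i, hi, hx⟩
      rcases Nat.lt_or_ge i c with hic | hic
      · left
        rw [← hD1 i hic] at hx
        obtain ⟨a, _, rfl⟩ := mem_image.1 hx
        exact mem_V.2 ⟨i, by omega, a, rfl⟩
      · rw [← hD2 i hic hi, image_update, mem_insert] at hx
        rcases hx with rfl | hx
        · exact Or.inr ⟨i, hic, hi, rfl⟩
        · left
          obtain ⟨a, _, rfl⟩ := mem_image.1 hx
          have := D.hpl i hic hi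
          exact mem_V.2 ⟨D.p i, by omega, a, rfl⟩
    · intro i hi
      rcases Nat.lt_or_ge i c with hic | hic
      · exact hH'1 (image_comp_mem (hf2 i hic) (hD1 i hic))
      · exact hH'1 (image_comp_mem (hf3 i hic hi) (hD2 i hic hi))

end Pool.Agent.Y85.KT
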