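import Mathlib

set_option autoImplicit false

/-!
# Ordered edges of a uniform hypergraph
-/

namespace Pool.Agent.Y85.KT

open Finset Function

variable {α : Type*} [Fintype α] [DecidableEq α] {r : ℕ}

open Classical in
/-- ordered edges -/
noncomputable def O (H : Finset (Finset α)) (r : ℕ) : Finset (Fin r → α) :=
  univ.filter fun τ => Injective τ ∧ univ.image τ ∈ H

/-- the vertices which may replace the entry `s` -/
noncomputable def N (H : Finset (Finset α)) (s : Fin r) (τ : Fin r → α) : Finset α :=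
  univ.filter fun w => update τ s w ∈ O H r

variable {H : Finset (Finset α)}

lemma mem_O {τ : Fin r → α} : τ ∈ O H r ↔ Injective τ ∧ univ.image τ ∈ H := by
  unfold O
  simp

lemma mem_N {s : Fin r} {τ : Fin r → α} {w : α} : w ∈ N H s τ ↔ update τ s w ∈ O H r := by
  unfold N
  simp

lemma self_mem_N {s : Fin r} {τ : Fin r → α} (h : τ ∈ O H r) : τ s ∈ N H s τ := by
  rw [mem_N, update_eq_self]
  exact h

lemma N_update (s : Fin r) (τ : Fin r → α) (w : α) : N H s (update τ s w) = N H s τ := by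
  ext x
  rw [mem_N, mem_N, update_idem]

lemma N_pos {s : Fin r} {τ : Fin r → α} (h : τ ∈ O H r) : 0 < #(N H s τ) :=
  card_pos.2 ⟨_, self_mem_N h⟩

/-- resampling one entry does not change the average over the ordered edges -/
lemma invariance (s : Fin r) (G : (Fin r → α) → ℝ) :
    ∑ τ ∈ O H r, (∑ w ∈ N H s τ, G (update τ s w)) / #(N H s τ) = ∑ τ ∈ O H r, G τ := by
  have h1 : ∑ τ ∈ O H r, (∑ w ∈ N H s τ, G (update τ s w)) / #(N H s τ) =
      ∑ τ ∈ O H r, ∑ w ∈ N H s τ, G (update τ s w) / #(N H s τ) := by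
    refine Finset.sum_congr rfl fun τ _ => ?_
    rw [Finset.sum_div]
  have h2 : ∑ τ ∈ O H r, G τ = ∑ τ ∈ O H r, ∑ _w ∈ N H s τ, G τ / #(N H s τ) := by
    refine Finset.sum_congr rfl fun τ hτ => ?_
    rw [Finset.sum_const, nsmul_eq_mul]
    have := N_pos (s := s) hτ
    field_simp
  rw [h1, h2, Finset.sum_sigma', Finset.sum_sigma']
  refine Finset.sum_nbij' (fun x => ⟨update x.1 s x.2, x.1 s⟩)
    (fun x => ⟨update x.1 s x.2, x.1 s⟩) ?_ ?_ ?_ ?_ ?_
  · rintro ⟨τ, w⟩ hx
    obtain ⟨h3, h4⟩ := mem_sigma.1 hx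
    refine mem_sigma.2 ⟨mem_N.1 h4, ?_⟩
    simp only
    rw [N_update]
    exact self_mem_N h3
  · rintro ⟨τ, w⟩ hx
    obtain ⟨h3, h4⟩ := mem_sigma.1 hx
    refine mem_sigma.2 ⟨mem_N.1 h4, ?_⟩
    simp only
    rw [N_update]
    exact self_mem_N h3
  · rintro ⟨τ, w⟩ _
    simp
  · rintro ⟨τ, w⟩ _
    simp
  · rintro ⟨τ, w⟩ _
    simp only
    rw [N_update]

/-- number of vertices extending a facet -/
def dg (H : Finset (Finset α)) (g : Finset α) : ℕ :=
  #(univ.filter fun w => w ∉ g ∧ insert w g ∈ H)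

omit [Fintype α] in
lemma image_erase {τ : Fin r → α} (hτ : Injective τ) (s : Fin r) :
    (univ.image τ).erase (τ s) = (univ.erase s).image τ := by
  ext x
  simp only [mem_erase, mem_image, mem_univ, true_and, and_true]
  constructor
  · rintro ⟨h1, a, rfl⟩
    exact ⟨a, fun hc => h1 (by rw [hc]), rfl⟩
  · rintro ⟨a, h1, rfl⟩
    exact ⟨fun hc => h1 (hτ hc), a, rfl⟩

omit [Fintype α] in
lemma image_update (τ : Fin r → α) (s : Fin r) (w : α) :
    univ.image (update τ s w) = insert w ((univ.erase s).image τ) := by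
  ext x
  simp only [mem_image, mem_univ, true_and, mem_insert, mem_erase, and_true]
  constructor
  · rintro ⟨a, rfl⟩
    by_cases ha : a = s
    · left
      rw [ha, update_self]
    · right
      exact ⟨a, ha, by rw [update_of_ne ha]⟩
  · rintro (rfl | ⟨a, ha, rfl⟩)
    · exact ⟨s, update_self _ _ _⟩
    · exact ⟨a, by rw [update_of_ne ha]⟩

omit [Fintype α] in
lemma update_injective {τ : Fin r → α} (hτ : Injective τ) {s : Fin r} {w : α} :
    Injective (update τ s w) ↔ w ∉ (univ.erase s).image τ := by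
  constructor
  · intro h hc
    obtain ⟨a, ha, rfl⟩ := mem_image.1 hc
    have hne := ne_of_mem_erase ha
    apply hne
    apply h
    rw [update_self, update_of_ne hne]
  · intro h a b hab
    by_cases ha : a = s
    · by_cases hb : b = s
      · rw [ha, hb]
      · rw [ha, update_self, update_of_ne hb] at hab
        exact absurd (mem_image.2 ⟨b, mem_erase.2 ⟨hb, mem_univ _⟩, hab.symm⟩) h
    · by_cases hb : b = s
      · rw [hb, update_self, update_of_ne ha] at hab
        exact absurd (mem_image.2 ⟨a, mem_erase.2 ⟨ha, mem_univ _⟩, hab⟩) h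
      · rw [update_of_ne ha, update_of_ne hb] at hab
        exact hτ hab

lemma card_N {τ : Fin r → α} (hτ : τ ∈ O H r) (s : Fin r) :
    #(N H s τ) = dg H ((univ.image τ).erase (τ s)) := by
  obtain ⟨h1, h2⟩ := mem_O.1 hτ
  unfold dg
  congr 1
  ext w
  rw [mem_N, mem_O, update_injective h1, image_update, image_erase h1]
  simp

lemma shadow_sum (hr : ∀ h ∈ H, 0 < #h) :
    ∑ h ∈ H, ∑ y ∈ h, (1 : ℝ) / dg H (h.erase y) = #(H.shadow) := by
  have _ := hr
  have h1 : (#(H.shadow) : ℝ) = ∑ g ∈ H.shadow,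
      ∑ _w ∈ univ.filter (fun w => w ∉ g ∧ insert w g ∈ H), (1 : ℝ) / dg H g := by
    rw [Finset.card_eq_sum_ones, Nat.cast_sum]
    refine Finset.sum_congr rfl fun g hg => ?_
    rw [Finset.sum_const, nsmul_eq_mul]
    have h2 : 0 < dg H g := by
      rw [Finset.mem_shadow_iff_insert_mem] at hg
      obtain ⟨w, hw, hw'⟩ := hg
      exact card_pos.2 ⟨w, mem_filter.2 ⟨mem_univ _, hw, hw'⟩⟩
    have h3 : (#(univ.filter (fun w => w ∉ g ∧ insert w g ∈ H)) : ℝ) = dg H g := rfl
    rw [h3]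
    push_cast
    field_simp
  rw [h1, Finset.sum_sigma', Finset.sum_sigma']
  refine Finset.sum_nbij' (fun x => ⟨x.1.erase x.2, x.2⟩) (fun x => ⟨insert x.2 x.1, x.2⟩)
    ?_ ?_ ?_ ?_ ?_
  · rintro ⟨h, y⟩ hx
    obtain ⟨h3, h4⟩ := mem_sigma.1 hx
    simp only at h3 h4
    refine mem_sigma.2 ⟨?_, mem_filter.2 ⟨mem_univ _, ?_, ?_⟩⟩
    · exact Finset.erase_mem_shadow h3 h4
    · exact notMem_erase _ _
    · simp only
      rw [insert_erase h4]
      exact h3
  · rintro ⟨g, w⟩ hx
    obtain ⟨h3, h4⟩ := mem_sigma.1 hx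
    obtain ⟨_, h5, h6⟩ := mem_filter.1 h4
    refine mem_sigma.2 ⟨h6, mem_insert_self _ _⟩
  · rintro ⟨h, y⟩ hx
    obtain ⟨h3, h4⟩ := mem_sigma.1 hx
    simp only at h3 h4
    simp only [insert_erase h4]
  · rintro ⟨g, w⟩ hx
    obtain ⟨h3, h4⟩ := mem_sigma.1 hx
    obtain ⟨_, h5, h6⟩ := mem_filter.1 h4
    simp only at h5
    simp only [erase_insert h5]
  · rintro ⟨h, y⟩ _
    rfl

/-- the number of orderings of an edge -/
lemma card_orderings {h : Finset α} (hh : #h = r) :
    #(univ.filter fun τ : Fin r → α => Injective τ ∧ univ.image τ = h) = r.factorial := by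
  classical
  have e : Fin r ≃ h := (Fintype.equivFinOfCardEq (by rw [Fintype.card_coe, hh])).symm
  have h1 : Fintype.card (Fin r ≃ h) = r.factorial := by
    rw [Fintype.card_equiv e, Fintype.card_fin]
  rw [← h1, ← Finset.card_univ]
  symm
  refine Finset.card_bij (fun f _ => fun i => (f i : α)) ?_ ?_ ?_
  · intro f _
    refine mem_filter.2 ⟨mem_univ _, ?_, ?_⟩
    · intro a b hab
      exact f.injective (Subtype.ext hab)
    · ext x
      simp only [mem_image, mem_univ, true_and]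
      constructor
      · rintro ⟨a, rfl⟩
        exact (f a).2
      · intro hx
        exact ⟨f.symm ⟨x, hx⟩, by simp⟩
  · intro f _ g _ hfg
    ext a
    exact congrFun hfg a
  · intro τ hτ
    obtain ⟨_, h2, h3⟩ := mem_filter.1 hτ
    have hm : ∀ a, τ a ∈ h := fun a => h3 ▸ mem_image_of_mem τ (mem_univ a)
    refine ⟨Equiv.ofBijective (fun a => (⟨τ a, hm a⟩ : h)) ⟨?_, ?_⟩, mem_univ _, ?_⟩
    · intro a b hab
      exact h2 (congrArg Subtype.val hab)
    · rintro ⟨x, hx⟩
      rw [← h3] at hx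
      obtain ⟨a, _, ha⟩ := mem_image.1 hx
      exact ⟨a, Subtype.ext ha⟩
    · funext a
      rfl

lemma sum_O (hr : ∀ h ∈ H, #h = r) (f : Finset α → ℝ) :
    ∑ τ ∈ O H r, f (univ.image τ) = r.factorial * ∑ h ∈ H, f h := by
  classical
  have h1 : ∀ τ ∈ O H r, univ.image τ ∈ H := fun τ hτ => (mem_O.1 hτ).2
  rw [← Finset.sum_fiberwise_of_maps_to h1, Finset.mul_sum]
  refine Finset.sum_congr rfl fun h hh => ?_
  rw [Finset.sum_congr rfl (g := fun _ => f h) (fun τ hτ => by rw [(mem_filter.1 hτ).2]),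
    Finset.sum_const, nsmul_eq_mul]
  congr 1
  rw [← card_orderings (hr h hh)]
  congr 2
  ext τ
  simp only [mem_filter, mem_O, mem_univ, true_and]
  constructor
  · rintro ⟨⟨h2, _⟩, h3⟩
    exact ⟨h2, h3⟩
  · rintro ⟨h2, h3⟩
    exact ⟨⟨h2, h3.symm ▸ hh⟩, h3⟩

lemma card_O (hr : ∀ h ∈ H, #h = r) : (#(O H r) : ℝ) = r.factorial * #H := by
  have := sum_O hr (fun _ => (1 : ℝ))
  simpa using this

/-- the average of the inverse of the degree of a facet -/
lemma sum_inv (hr : ∀ h ∈ H, #h = r) (s : Fin r) :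
    r * ∑ τ ∈ O H r, (1 : ℝ) / #(N H s τ) = r.factorial * #(H.shadow) := by
  classical
  -- all entries give the same sum
  have h1 : ∀ s' : Fin r, ∑ τ ∈ O H r, (1 : ℝ) / #(N H s' τ) =
      ∑ τ ∈ O H r, (1 : ℝ) / #(N H s τ) := by
    intro s'
    refine Finset.sum_nbij' (fun τ => τ ∘ Equiv.swap s s') (fun τ => τ ∘ Equiv.swap s s')
      ?_ ?_ ?_ ?_ ?_
    · intro τ hτ
      obtain ⟨h2, h3⟩ := mem_O.1 hτ
      refine mem_O.2 ⟨h2.comp (Equiv.injective _), ?_⟩
      have : univ.image (τ ∘ Equiv.swap s s') = univ.image τ := by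
        rw [← Finset.image_image]
        congr 1
        exact Finset.image_univ_equiv _
      rw [this]
      exact h3
    · intro τ hτ
      obtain ⟨h2, h3⟩ := mem_O.1 hτ
      refine mem_O.2 ⟨h2.comp (Equiv.injective _), ?_⟩
      have : univ.image (τ ∘ Equiv.swap s s') = univ.image τ := by
        rw [← Finset.image_image]
        congr 1
        exact Finset.image_univ_equiv _
      rw [this]
      exact h3
    · intro τ _
      funext a
      simp
    · intro τ _
      funext a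
      simp
    · intro τ hτ
      obtain ⟨h2, h3⟩ := mem_O.1 hτ
      have h4 : univ.image (τ ∘ Equiv.swap s s') = univ.image τ := by
        rw [← Finset.image_image]
        congr 1
        exact Finset.image_univ_equiv _
      have h5 : τ ∘ Equiv.swap s s' ∈ O H r := mem_O.2 ⟨h2.comp (Equiv.injective _), h4 ▸ h3⟩
      rw [card_N hτ, card_N h5, h4]
      simp
  have h2 : r * ∑ τ ∈ O H r, (1 : ℝ) / #(N H s τ) =
      ∑ s' : Fin r, ∑ τ ∈ O H r, (1 : ℝ) / #(N H s' τ) := by
    rw [Finset.sum_congr rfl fun s' _ => h1 s', Finset.sum_const, nsmul_eq_mul, card_univ,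
      Fintype.card_fin]
  rw [h2, Finset.sum_comm]
  have h3 : ∀ τ ∈ O H r, ∑ s' : Fin r, (1 : ℝ) / #(N H s' τ) =
      (fun h : Finset α => ∑ y ∈ h, (1 : ℝ) / dg H (h.erase y)) (univ.image τ) := by
    intro τ hτ
    have h4 := (mem_O.1 hτ).1
    simp only
    rw [Finset.sum_image (fun a _ b _ hab => h4 hab)]
    refine Finset.sum_congr rfl fun s' _ => ?_
    rw [card_N hτ]
  rw [Finset.sum_congr rfl h3]
  refine (sum_O hr (fun h : Finset α => ∑ y ∈ h, (1 : ℝ) / dg H (h.erase y))).trans ?_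
  congr 1
  by_cases h0 : r = 0
  · subst h0
    exact s.elim0
  · exact shadow_sum fun h hh => by rw [hr h hh]; omega

end Pool.Agent.Y85.KT
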